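import Mathlib

/-!
# The noncommutative Khintchine inequality with weak variance fails in every dimension

For every `d ≥ 3` there is a centred Gaussian `d × d` matrix `X` with
`E‖X‖ > c √(log d / log log d) (σ(X) + √(log d) σ_*(X))`.
-/

set_option autoImplicit false
set_option linter.unusedSectionVars false

open MeasureTheory ProbabilityTheory Matrix

namespace Pool.Agent.Results.MP_25279b_pr.GrowingRatio

/-- The operator norm of a real `d × d` matrix (for the Euclidean norm on `ℝ^d`). -/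
noncomputable def opNorm {d : ℕ} (M : Matrix (Fin d) (Fin d) ℝ) : ℝ :=
  ‖Matrix.toEuclideanCLM (n := Fin d) (𝕜 := ℝ) M‖

/-- `X` is a random matrix whose entries form a jointly Gaussian vector with mean zero. -/
def IsCenteredGaussian {d : ℕ} {Ω : Type} [MeasurableSpace Ω]
    (X : Ω → Matrix (Fin d) (Fin d) ℝ) (P : Measure Ω) : Prop :=
  HasGaussianLaw (fun ω (p : Fin d × Fin d) => X ω p.1 p.2) P ∧
    ∀ a b, ∫ ω, X ω a b ∂P = 0

/-- `σ(X) = ‖E(X^* X)‖^{1/2} + ‖E(X X^*)‖^{1/2}`. -/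
noncomputable def sigma {d : ℕ} {Ω : Type} [MeasurableSpace Ω]
    (X : Ω → Matrix (Fin d) (Fin d) ℝ) (P : Measure Ω) : ℝ :=
  √(opNorm (Matrix.of fun a b => ∫ ω, ((X ω)ᵀ * X ω) a b ∂P)) +
    √(opNorm (Matrix.of fun a b => ∫ ω, (X ω * (X ω)ᵀ) a b ∂P))

/-- The weak variance `σ_*(X)`: the supremum of `(E ⟨X v, w⟩^2)^{1/2}` over unit vectors. -/
noncomputable def weakVar {d : ℕ} {Ω : Type} [MeasurableSpace Ω]
    (X : Ω → Matrix (Fin d) (Fin d) ℝ) (P : Measure Ω) : ℝ :=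
  ⨆ p : {v : EuclideanSpace ℝ (Fin d) // ‖v‖ = 1} × {w : EuclideanSpace ℝ (Fin d) // ‖w‖ = 1},
    √(∫ ω, (inner ℝ (Matrix.toEuclideanCLM (n := Fin d) (𝕜 := ℝ) (X ω) p.1.1) p.2.1) ^ 2 ∂P)

/-! ### Linear algebra -/

/-- Weighted Schur type bound. -/
lemma sum_sq_mulVec_le {α β : Type*} [Fintype α] [Fintype β] (B : Matrix α β ℝ)
    (h0 : ∀ a b, 0 ≤ B a b) (hr : ∀ a, ∑ b, B a b ≤ 1) (v : β → ℝ) :
    ∑ a, (B *ᵥ v) a ^ 2 ≤ ∑ b, (∑ a, B a b) * v b ^ 2 := by
  have h1 : ∀ a, (B *ᵥ v) a ^ 2 ≤ ∑ b, B a b * v b ^ 2 := by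
    intro a
    have h2 : (∑ b, B a b * v b) ^ 2 ≤ (∑ b, B a b) * ∑ b, B a b * v b ^ 2 := by
      apply Finset.sum_sq_le_sum_mul_sum_of_sq_le_mul
      · intro b _; exact h0 a b
      · intro b _; exact mul_nonneg (h0 a b) (sq_nonneg _)
      · intro b _; exact le_of_eq (by ring)
    calc (B *ᵥ v) a ^ 2 = (∑ b, B a b * v b) ^ 2 := by rfl
      _ ≤ (∑ b, B a b) * ∑ b, B a b * v b ^ 2 := h2
      _ ≤ 1 * ∑ b, B a b * v b ^ 2 := by
          apply mul_le_mul_of_nonneg_right (hr a)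
          exact Finset.sum_nonneg fun b _ => mul_nonneg (h0 a b) (sq_nonneg _)
      _ = _ := one_mul _
  calc ∑ a, (B *ᵥ v) a ^ 2 ≤ ∑ a, ∑ b, B a b * v b ^ 2 := Finset.sum_le_sum fun a _ => h1 a
    _ = ∑ b, (∑ a, B a b) * v b ^ 2 := by
      rw [Finset.sum_comm]
      simp_rw [Finset.sum_mul]

/-- The lowering matrix: it moves the `j`-th letter of a word from `k+1` to `0`. -/
def low (m N : ℕ) (j : Fin m) (k : Fin N) :
    Matrix (Fin m → Fin (N + 1)) (Fin m → Fin (N + 1)) ℝ :=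
  fun f h => if f j = 0 ∧ h = Function.update f j k.succ then 1 else 0

lemma low_nonneg (m N : ℕ) (j : Fin m) (k : Fin N) (f h) : 0 ≤ low m N j k f h := by
  unfold low; split_ifs <;> norm_num

lemma low_row (m N : ℕ) (j : Fin m) (k : Fin N) (f) : ∑ h, low m N j k f h ≤ 1 := by
  unfold low
  by_cases hf : f j = 0
  · simp [hf]
  · simp [hf]

lemma low_col (m N : ℕ) (j : Fin m) (h) : ∑ k, ∑ f, low m N j k f h ≤ 1 := by
  unfold low
  have key : ∀ (k : Fin N) (f : Fin m → Fin (N + 1)),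
      (if f j = 0 ∧ h = Function.update f j k.succ then (1 : ℝ) else 0)
        ≤ if f = Function.update h j 0 then (if k.succ = h j then 1 else 0) else 0 := by
    intro k f
    by_cases hc : f j = 0 ∧ h = Function.update f j k.succ
    · obtain ⟨h1, h2⟩ := hc
      have h3 : f = Function.update h j 0 := by
        rw [h2]; simp [← h1]
      have h4 : k.succ = h j := by rw [h2]; simp
      rw [if_pos ⟨h1, h2⟩, if_pos h3, if_pos h4]
    · rw [if_neg hc]
      split_ifs <;> norm_num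
  calc _ ≤ ∑ k : Fin N, ∑ f : Fin m → Fin (N + 1),
        (if f = Function.update h j 0 then (if k.succ = h j then (1 : ℝ) else 0) else 0) :=
        Finset.sum_le_sum fun k _ => Finset.sum_le_sum fun f _ => key k f
    _ = ∑ k : Fin N, (if k.succ = h j then (1 : ℝ) else 0) := by
        simp
    _ ≤ 1 := by
        by_cases hj : h j = 0
        · have : ∀ k : Fin N, ¬ (k.succ = h j) := fun k => by rw [hj]; exact Fin.succ_ne_zero k
          simp [this]
        · obtain ⟨k0, hk0⟩ := Fin.exists_succ_eq.2 hj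
          have : ∀ k : Fin N, (k.succ = h j) ↔ k = k0 := fun k => by
            rw [← hk0]; exact Fin.succ_inj
          simp [this]

lemma low_col' (m N : ℕ) (j : Fin m) (k : Fin N) (h) : ∑ f, low m N j k f h ≤ 1 := by
  refine le_trans ?_ (low_col m N j h)
  exact Finset.single_le_sum (f := fun k => ∑ f, low m N j k f h)
    (fun k _ => Finset.sum_nonneg fun f _ => low_nonneg m N j k f h) (Finset.mem_univ k)

lemma sum_low_sq (m N : ℕ) (u : (Fin m → Fin (N + 1)) → ℝ) :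
    ∑ p : Fin m × Fin N, ∑ f, (low m N p.1 p.2 *ᵥ u) f ^ 2 ≤ m * ∑ h, u h ^ 2 := by
  calc ∑ p : Fin m × Fin N, ∑ f, (low m N p.1 p.2 *ᵥ u) f ^ 2
      ≤ ∑ p : Fin m × Fin N, ∑ h, (∑ f, low m N p.1 p.2 f h) * u h ^ 2 :=
        Finset.sum_le_sum fun p _ => sum_sq_mulVec_le _ (low_nonneg m N p.1 p.2)
          (low_row m N p.1 p.2) u
    _ = ∑ h, (∑ p : Fin m × Fin N, ∑ f, low m N p.1 p.2 f h) * u h ^ 2 := by
        rw [Finset.sum_comm]; simp_rw [Finset.sum_mul]
    _ ≤ ∑ h, (m : ℝ) * u h ^ 2 := by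
        refine Finset.sum_le_sum fun h _ => mul_le_mul_of_nonneg_right ?_ (sq_nonneg _)
        rw [Fintype.sum_prod_type]
        calc _ ≤ ∑ j : Fin m, (1 : ℝ) := Finset.sum_le_sum fun j _ => low_col m N j h
          _ = m := by simp
    _ = _ := by rw [Finset.mul_sum]

lemma sum_low_transpose_sq (m N : ℕ) (u : (Fin m → Fin (N + 1)) → ℝ) :
    ∑ p : Fin m × Fin N, ∑ f, ((low m N p.1 p.2)ᵀ *ᵥ u) f ^ 2 ≤ (m * N : ℝ) * ∑ h, u h ^ 2 := by
  calc ∑ p : Fin m × Fin N, ∑ f, ((low m N p.1 p.2)ᵀ *ᵥ u) f ^ 2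
      ≤ ∑ p : Fin m × Fin N, ∑ h, (∑ f, (low m N p.1 p.2)ᵀ f h) * u h ^ 2 :=
        Finset.sum_le_sum fun p _ => sum_sq_mulVec_le _
          (fun a b => low_nonneg m N p.1 p.2 b a) (fun a => low_col' m N p.1 p.2 a) u
    _ ≤ ∑ p : Fin m × Fin N, ∑ h, u h ^ 2 := by
        refine Finset.sum_le_sum fun p _ => Finset.sum_le_sum fun h _ => ?_
        have := mul_le_mul_of_nonneg_right (low_row m N p.1 p.2 h) (sq_nonneg (u h))
        simpa using this
    _ = _ := by simp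

/-! ### Transport to size `d` -/

section transport

variable {W : Type} [Fintype W] [DecidableEq W] {d : ℕ} (e : W ↪ Fin d)

/-- The coordinate projection `ℝ^d → ℝ^W`. -/
def Q : Matrix W (Fin d) ℝ := fun f a => if e f = a then 1 else 0

lemma Q_mulVec (v : Fin d → ℝ) (f : W) : (Q e *ᵥ v) f = v (e f) := by
  simp [Q, mulVec, dotProduct]

lemma Q_mulVec_sq (v : Fin d → ℝ) : ∑ f, (Q e *ᵥ v) f ^ 2 ≤ ∑ a, v a ^ 2 := by
  simp_rw [Q_mulVec]
  calc ∑ f, v (e f) ^ 2 = ∑ a ∈ Finset.univ.map e, v a ^ 2 := by rw [Finset.sum_map]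
    _ ≤ ∑ a, v a ^ 2 := Finset.sum_le_univ_sum_of_nonneg fun a => sq_nonneg _

lemma Q_mul_transpose : Q e * (Q e)ᵀ = 1 := by
  ext f h
  rw [Matrix.mul_apply, Matrix.one_apply]
  simp only [Q, transpose_apply, mul_ite, mul_one, mul_zero]
  by_cases hfh : f = h
  · subst hfh
    simp
  · rw [if_neg hfh]
    apply Finset.sum_eq_zero
    intro a _
    by_cases h1 : e h = a
    · rw [if_pos h1, if_neg]
      intro h2
      exact hfh (e.injective (h2.trans h1.symm))
    · rw [if_neg h1]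

lemma dot_self {α : Type*} [Fintype α] (v : α → ℝ) : v ⬝ᵥ v = ∑ a, v a ^ 2 := by
  simp [dotProduct, pow_two]

lemma Q_transpose_sq (u : W → ℝ) : ∑ a, ((Q e)ᵀ *ᵥ u) a ^ 2 = ∑ f, u f ^ 2 := by
  rw [← dot_self, ← dot_self, Matrix.dotProduct_mulVec, Matrix.vecMul_transpose,
    Matrix.mulVec_mulVec, Q_mul_transpose, Matrix.one_mulVec]

/-- A matrix on words moved to size `d`. -/
def lift (L : Matrix W W ℝ) : Matrix (Fin d) (Fin d) ℝ := (Q e)ᵀ * L * Q e

lemma lift_mulVec (L : Matrix W W ℝ) (v : Fin d → ℝ) :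
    lift e L *ᵥ v = (Q e)ᵀ *ᵥ (L *ᵥ (Q e *ᵥ v)) := by
  simp only [lift, Matrix.mulVec_mulVec, Matrix.mul_assoc]

lemma lift_mulVec_sq (L : Matrix W W ℝ) (v : Fin d → ℝ) :
    ∑ a, (lift e L *ᵥ v) a ^ 2 = ∑ f, (L *ᵥ (Q e *ᵥ v)) f ^ 2 := by
  rw [lift_mulVec, Q_transpose_sq]

lemma lift_transpose (L : Matrix W W ℝ) : (lift e L)ᵀ = lift e Lᵀ := by
  simp [lift, Matrix.transpose_mul, Matrix.mul_assoc]

lemma lift_quad (L : Matrix W W ℝ) (u : W → ℝ) :
    ((Q e)ᵀ *ᵥ u) ⬝ᵥ (lift e L *ᵥ ((Q e)ᵀ *ᵥ u)) = u ⬝ᵥ (L *ᵥ u) := by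
  have hQ : Q e *ᵥ ((Q e)ᵀ *ᵥ u) = u := by
    rw [Matrix.mulVec_mulVec, Q_mul_transpose, Matrix.one_mulVec]
  rw [lift_mulVec, hQ, Matrix.dotProduct_mulVec, Matrix.vecMul_transpose, hQ]

end transport

/-! ### The test vector -/

/-- The one-site test vector. -/
noncomputable def site (N : ℕ) (g : Fin N → ℝ) : Fin (N + 1) → ℝ :=
  Fin.cons (√(1 / 2)) (fun k => (if 0 ≤ g k then 1 else -1) * √(1 / (2 * N)))

lemma site_sq (N : ℕ) (hN : 0 < N) (g : Fin N → ℝ) : ∑ a, site N g a ^ 2 = 1 := by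
  rw [Fin.sum_univ_succ]
  have h1 : ∀ k : Fin N, site N g k.succ ^ 2 = 1 / (2 * N) := by
    intro k
    simp only [site, Fin.cons_succ, mul_pow]
    rw [Real.sq_sqrt (by positivity)]
    split_ifs <;> norm_num
  simp_rw [h1]
  simp only [site, Fin.cons_zero]
  rw [Real.sq_sqrt (by positivity)]
  have : (N : ℝ) ≠ 0 := by positivity
  simp
  field_simp
  norm_num

/-- The product test vector. -/
noncomputable def prodVec (m N : ℕ) (u : Fin m → Fin (N + 1) → ℝ) : (Fin m → Fin (N + 1)) → ℝ :=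
  fun f => ∏ i, u i (f i)

lemma sum_prod_eq (m N : ℕ) (F : Fin m → Fin (N + 1) → ℝ) :
    ∑ f : Fin m → Fin (N + 1), ∏ i, F i (f i) = ∏ i, ∑ a, F i a := by
  rw [Finset.prod_univ_sum]
  simp

lemma prodVec_sq (m N : ℕ) (u : Fin m → Fin (N + 1) → ℝ) (hu : ∀ i, ∑ a, u i a ^ 2 = 1) :
    ∑ f, prodVec m N u f ^ 2 = 1 := by
  have : ∀ f, prodVec m N u f ^ 2 = ∏ i, u i (f i) ^ 2 := by
    intro f
    simp only [prodVec, ← Finset.prod_pow]
  simp_rw [this]
  rw [sum_prod_eq m N (fun i a => u i a ^ 2)]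
  simp [hu]

lemma prodVec_low (m N : ℕ) (u : Fin m → Fin (N + 1) → ℝ) (hu : ∀ i, ∑ a, u i a ^ 2 = 1)
    (j : Fin m) (k : Fin N) :
    prodVec m N u ⬝ᵥ (low m N j k *ᵥ prodVec m N u) = u j 0 * u j k.succ := by
  have h1 : ∀ f, prodVec m N u f * (low m N j k *ᵥ prodVec m N u) f =
      ∏ i, (fun (i : Fin m) (a : Fin (N + 1)) => if i = j then (if a = 0 then u j 0 * u j k.succ else 0)
        else u i a ^ 2) i (f i) := by
    intro f
    have h2 : (low m N j k *ᵥ prodVec m N u) f =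
        if f j = 0 then prodVec m N u (Function.update f j k.succ) else 0 := by
      simp only [mulVec, dotProduct, low]
      by_cases hf : f j = 0 <;> simp [hf]
    rw [h2]
    by_cases hf : f j = 0
    · rw [if_pos hf]
      simp only [prodVec, ← Finset.prod_mul_distrib]
      refine Finset.prod_congr rfl fun i _ => ?_
      by_cases hi : i = j
      · subst hi
        simp [hf]
      · simp [hi, pow_two]
    · rw [if_neg hf, mul_zero]
      symm
      apply Finset.prod_eq_zero (Finset.mem_univ j)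
      simp [hf]
  unfold dotProduct
  simp_rw [h1]
  rw [sum_prod_eq m N (fun i a => if i = j then (if a = 0 then u j 0 * u j k.succ else 0)
        else u i a ^ 2)]
  rw [Finset.prod_eq_single j]
  · simp
  · intro i _ hi
    simp [hi, hu]
  · simp

lemma exists_test (m N : ℕ) (hN : 0 < N) (g : Fin m × Fin N → ℝ) :
    ∃ u : (Fin m → Fin (N + 1)) → ℝ, ∑ f, u f ^ 2 = 1 ∧
      ∀ p : Fin m × Fin N, g p * (u ⬝ᵥ (low m N p.1 p.2 *ᵥ u)) = |g p| / (2 * √N) := by
  set u : Fin m → Fin (N + 1) → ℝ := fun j => site N (fun k => g (j, k)) with hu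
  have hu1 : ∀ i, ∑ a, u i a ^ 2 = 1 := fun i => site_sq N hN _
  refine ⟨prodVec m N u, prodVec_sq m N u hu1, ?_⟩
  rintro ⟨j, k⟩
  rw [prodVec_low m N u hu1]
  have h2 : u j 0 = √(1 / 2) := by simp [hu, site]
  have h3 : u j k.succ = (if 0 ≤ g (j, k) then 1 else -1) * √(1 / (2 * N)) := by
    simp only [hu, site, Fin.cons_succ]
  rw [h2, h3]
  have h4 : √(1 / 2 : ℝ) * √(1 / (2 * (N : ℝ))) = 1 / (2 * √N) := by
    rw [← Real.sqrt_mul (by norm_num)]
    have : (1 / 2 : ℝ) * (1 / (2 * N)) = (1 / (2 * √N)) ^ 2 := by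
      rw [div_pow, mul_pow, Real.sq_sqrt (by positivity)]
      ring
    rw [this, Real.sqrt_sq (by positivity)]
  have h5 : g (j, k) * (√(1 / 2 : ℝ) * ((if 0 ≤ g (j, k) then 1 else -1) * √(1 / (2 * (N : ℝ))))) =
      (g (j, k) * (if 0 ≤ g (j, k) then 1 else -1)) * (√(1 / 2 : ℝ) * √(1 / (2 * (N : ℝ)))) := by
    ring
  rw [h5, h4]
  have h6 : g (j, k) * (if 0 ≤ g (j, k) then 1 else -1) = |g (j, k)| := by
    split_ifs with hg
    · rw [abs_of_nonneg hg, mul_one]
    · rw [abs_of_neg (not_le.1 hg)]; ring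
  rw [h6]
  ring

/-! ### Norms -/

section norms

variable {d : ℕ}

lemma clm_apply (M : Matrix (Fin d) (Fin d) ℝ) (v : EuclideanSpace ℝ (Fin d)) :
    Matrix.toEuclideanCLM (n := Fin d) (𝕜 := ℝ) M v = WithLp.toLp 2 (M *ᵥ v.ofLp) := by
  rfl

lemma inner_eq (x y : EuclideanSpace ℝ (Fin d)) : inner ℝ x y = x.ofLp ⬝ᵥ y.ofLp := by
  rw [EuclideanSpace.inner_eq_star_dotProduct]
  simp [dotProduct_comm]

lemma norm_sq_eq (x : EuclideanSpace ℝ (Fin d)) : ‖x‖ ^ 2 = ∑ a, x.ofLp a ^ 2 := by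
  rw [EuclideanSpace.norm_sq_eq]
  simp

/-- A bound of a bilinear form by `K` on unit vectors gives the bound of the norm. -/
lemma opNorm_le_of (M : Matrix (Fin d) (Fin d) ℝ) (K : ℝ) (hK : 0 ≤ K)
    (h : ∀ v w : Fin d → ℝ, ∑ a, v a ^ 2 = 1 → ∑ a, w a ^ 2 = 1 → w ⬝ᵥ (M *ᵥ v) ≤ K) :
    opNorm M ≤ K := by
  unfold opNorm
  refine ContinuousLinearMap.opNorm_le_of_unit_norm hK fun v hv => ?_
  set y : EuclideanSpace ℝ (Fin d) := Matrix.toEuclideanCLM (n := Fin d) (𝕜 := ℝ) M v with hy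
  by_cases h0 : ‖y‖ = 0
  · rw [h0]; exact hK
  · have hv1 : ∑ a, v.ofLp a ^ 2 = 1 := by rw [← norm_sq_eq, hv, one_pow]
    have hw1 : ∑ a, (‖y‖⁻¹ • y).ofLp a ^ 2 = 1 := by
      rw [← norm_sq_eq, norm_smul, norm_inv, norm_norm, inv_mul_cancel₀ h0, one_pow]
    have h1 := h v.ofLp (‖y‖⁻¹ • y).ofLp hv1 hw1
    have h2 : (‖y‖⁻¹ • y).ofLp ⬝ᵥ (M *ᵥ v.ofLp) = ‖y‖ := by
      have h3 : (‖y‖⁻¹ • y).ofLp ⬝ᵥ (M *ᵥ v.ofLp) = inner ℝ (‖y‖⁻¹ • y) y := by
        rw [inner_eq, hy, clm_apply]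
      rw [h3, real_inner_smul_left, real_inner_self_eq_norm_sq]
      field_simp
    rwa [h2] at h1

lemma le_opNorm (M : Matrix (Fin d) (Fin d) ℝ) (v : Fin d → ℝ) (hv : ∑ a, v a ^ 2 = 1) :
    v ⬝ᵥ (M *ᵥ v) ≤ opNorm M := by
  unfold opNorm
  set x : EuclideanSpace ℝ (Fin d) := WithLp.toLp 2 v with hx
  have hx1 : ‖x‖ = 1 := by
    have : ‖x‖ ^ 2 = 1 := by rw [norm_sq_eq]; exact hv
    nlinarith [norm_nonneg x]
  have h1 : v ⬝ᵥ (M *ᵥ v) = inner ℝ x (Matrix.toEuclideanCLM (n := Fin d) (𝕜 := ℝ) M x) := by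
    rw [inner_eq, clm_apply]
  rw [h1]
  calc inner ℝ x (Matrix.toEuclideanCLM (n := Fin d) (𝕜 := ℝ) M x)
      ≤ ‖x‖ * ‖Matrix.toEuclideanCLM (n := Fin d) (𝕜 := ℝ) M x‖ := real_inner_le_norm _ _
    _ ≤ ‖x‖ * (‖Matrix.toEuclideanCLM (n := Fin d) (𝕜 := ℝ) M‖ * ‖x‖) :=
        mul_le_mul_of_nonneg_left (ContinuousLinearMap.le_opNorm _ _) (norm_nonneg _)
    _ = _ := by rw [hx1]; ring

lemma opNorm_nonneg (M : Matrix (Fin d) (Fin d) ℝ) : 0 ≤ opNorm M := norm_nonneg _

variable {ι : Type} [Fintype ι]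

/-- bound for the variance proxies: bilinear form of a sum of Gram matrices. -/
lemma gram_le (B : ι → Matrix (Fin d) (Fin d) ℝ) (K : ℝ) (hK : 0 ≤ K)
    (hB : ∀ v : Fin d → ℝ, ∑ i, ∑ a, (B i *ᵥ v) a ^ 2 ≤ K * ∑ b, v b ^ 2) :
    opNorm (∑ i, (B i)ᵀ * B i) ≤ K := by
  refine opNorm_le_of _ K hK fun v w hv hw => ?_
  have h1 : w ⬝ᵥ ((∑ i, (B i)ᵀ * B i) *ᵥ v) = ∑ i, ∑ a, (B i *ᵥ w) a * (B i *ᵥ v) a := by
    rw [sum_mulVec, dotProduct_sum]
    refine Finset.sum_congr rfl fun i _ => ?_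
    rw [← mulVec_mulVec, dotProduct_mulVec, vecMul_transpose]
    rfl
  rw [h1]
  calc ∑ i, ∑ a, (B i *ᵥ w) a * (B i *ᵥ v) a
      ≤ ∑ i, ∑ a, ((B i *ᵥ w) a ^ 2 + (B i *ᵥ v) a ^ 2) / 2 := by
        refine Finset.sum_le_sum fun i _ => Finset.sum_le_sum fun a _ => ?_
        nlinarith [sq_nonneg ((B i *ᵥ w) a - (B i *ᵥ v) a)]
    _ = ((∑ i, ∑ a, (B i *ᵥ w) a ^ 2) + (∑ i, ∑ a, (B i *ᵥ v) a ^ 2)) / 2 := by
        simp_rw [← Finset.sum_div, Finset.sum_add_distrib]
    _ ≤ (K * 1 + K * 1) / 2 := by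
        have h2 := hB v
        have h3 := hB w
        rw [hv] at h2
        rw [hw] at h3
        linarith
    _ = K := by ring

lemma weak_le (B : ι → Matrix (Fin d) (Fin d) ℝ) (K : ℝ)
    (hB : ∀ v : Fin d → ℝ, ∑ i, ∑ a, (B i *ᵥ v) a ^ 2 ≤ K * ∑ b, v b ^ 2)
    (v w : Fin d → ℝ) (hv : ∑ b, v b ^ 2 = 1) (hw : ∑ b, w b ^ 2 = 1) :
    ∑ i, (w ⬝ᵥ (B i *ᵥ v)) ^ 2 ≤ K := by
  calc ∑ i, (w ⬝ᵥ (B i *ᵥ v)) ^ 2 ≤ ∑ i, ∑ a, (B i *ᵥ v) a ^ 2 := by
        refine Finset.sum_le_sum fun i _ => ?_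
        have := Finset.sum_mul_sq_le_sq_mul_sq Finset.univ w (B i *ᵥ v)
        rw [hw, one_mul] at this
        exact this
    _ ≤ K * ∑ b, v b ^ 2 := hB v
    _ = K := by rw [hv, mul_one]

end norms

/-! ### The Gaussian measure -/

section gauss

variable {ι : Type} [Fintype ι]

/-- The standard Gaussian measure on `ℝ^ι`. -/
noncomputable def gm (ι : Type) [Fintype ι] : Measure (ι → ℝ) :=
  Measure.pi fun _ => gaussianReal 0 1

instance : IsProbabilityMeasure (gm ι) := by unfold gm; infer_instance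

lemma hasGaussianLaw_gm : HasGaussianLaw (fun g : ι → ℝ => fun i => g i) (gm ι) := by
  apply iIndepFun.hasGaussianLaw (X := fun (i : ι) (g : ι → ℝ) => g i)
  · intro i
    refine ⟨?_⟩
    have : (gm ι).map (fun g : ι → ℝ => g i) = gaussianReal 0 1 :=
      (measurePreserving_eval (fun _ : ι => gaussianReal 0 1) i).map_eq
    rw [this]
    infer_instance
  · exact iIndepFun_pi (X := fun (_ : ι) (x : ℝ) => x) (μ := fun _ : ι => gaussianReal 0 1)
      (fun i => aemeasurable_id)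

lemma integrable_eval (i : ι) : Integrable (fun g : ι → ℝ => g i) (gm ι) := by
  have h : Integrable (fun x : ℝ => x) (gaussianReal 0 1) := by
    have := (memLp_id_gaussianReal (μ := 0) (v := 1) 1)
    rw [ENNReal.coe_one, memLp_one_iff_integrable] at this
    exact this
  exact integrable_comp_eval (μ := fun _ : ι => gaussianReal 0 1) (i := i) h

lemma integral_eval (i : ι) : ∫ g : ι → ℝ, g i ∂(gm ι) = 0 := by
  have := integral_comp_eval (μ := fun _ : ι => gaussianReal 0 1) (i := i)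
          (f := fun x : ℝ => x) (by fun_prop)
  refine this.trans ?_
  exact integral_id_gaussianReal

lemma integrable_mul_eval (i j : ι) : Integrable (fun g : ι → ℝ => g i * g j) (gm ι) := by
  have h : ∀ i, MemLp (fun g : ι → ℝ => g i) 2 (gm ι) := fun i =>
    (hasGaussianLaw_gm.eval i).memLp_two
  exact (h i).integrable_mul (h j)

lemma integral_mul_eval [DecidableEq ι] (i j : ι) :
    ∫ g : ι → ℝ, g i * g j ∂(gm ι) = if i = j then 1 else 0 := by
  by_cases hij : i = j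
  · subst hij
    rw [if_pos rfl]
    have := integral_comp_eval (μ := fun _ : ι => gaussianReal 0 1) (i := i)
          (f := fun x : ℝ => x * x) (by fun_prop)
    refine this.trans ?_
    have h2 : Var[id; gaussianReal 0 1] = 1 := by
      rw [variance_id_gaussianReal]; simp
    rw [variance_eq_integral (by fun_prop)] at h2
    simpa [pow_two] using h2
  · rw [if_neg hij]
    have hind : iIndepFun (fun (i : ι) (g : ι → ℝ) => g i) (gm ι) :=
      iIndepFun_pi (X := fun (_ : ι) (x : ℝ) => x) (μ := fun _ : ι => gaussianReal 0 1)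
      (fun i => aemeasurable_id)
    have h3 := (hind.indepFun hij).integral_fun_mul_eq_mul_integral
      (integrable_eval i).aestronglyMeasurable (integrable_eval j).aestronglyMeasurable
    rw [h3, integral_eval, zero_mul]

/-- Covariances of linear forms. -/
lemma integral_forms (x y : ι → ℝ) :
    ∫ g : ι → ℝ, (∑ i, g i * x i) * (∑ i, g i * y i) ∂(gm ι) = ∑ i, x i * y i := by
  classical
  have h1 : ∀ g : ι → ℝ, (∑ i, g i * x i) * (∑ i, g i * y i) =
      ∑ i, ∑ j, (x i * y j) * (g i * g j) := by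
    intro g
    rw [Finset.sum_mul_sum]
    exact Finset.sum_congr rfl fun i _ => Finset.sum_congr rfl fun j _ => by ring
  simp_rw [h1]
  rw [integral_finsetSum]
  · refine Finset.sum_congr rfl fun i _ => ?_
    rw [integral_finsetSum]
    · simp_rw [integral_const_mul, integral_mul_eval]
      simp
    · intro j _
      exact (integrable_mul_eval i j).const_mul _
  · intro i _
    exact integrable_finsetSum _ fun j _ => (integrable_mul_eval i j).const_mul _

lemma integrable_forms (x y : ι → ℝ) :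
    Integrable (fun g : ι → ℝ => (∑ i, g i * x i) * (∑ i, g i * y i)) (gm ι) := by
  have h1 : ∀ g : ι → ℝ, (∑ i, g i * x i) * (∑ i, g i * y i) =
      ∑ i, ∑ j, (x i * y j) * (g i * g j) := by
    intro g
    rw [Finset.sum_mul_sum]
    exact Finset.sum_congr rfl fun i _ => Finset.sum_congr rfl fun j _ => by ring
  simp_rw [h1]
  exact integrable_finsetSum _ fun i _ => integrable_finsetSum _ fun j _ =>
    (integrable_mul_eval i j).const_mul _

end gauss

/-! ### Gaussian series -/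

section series

variable {ι : Type} [Fintype ι] {d : ℕ} (A : ι → Matrix (Fin d) (Fin d) ℝ)

/-- The Gaussian series `∑ g_i A_i`. -/
def ser (g : ι → ℝ) : Matrix (Fin d) (Fin d) ℝ := ∑ i, g i • A i

lemma ser_apply (g : ι → ℝ) (a b : Fin d) : ser A g a b = ∑ i, g i * A i a b := by
  simp [ser, Matrix.sum_apply]

lemma ser_isCentered : IsCenteredGaussian (ser A) (gm ι) := by
  constructor
  · let L : (ι → ℝ) →ₗ[ℝ] (Fin d × Fin d → ℝ) :=
      { toFun := fun g p => ∑ i, g i * A i p.1 p.2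
        map_add' := by
          intro g h; funext p
          simp [add_mul, Finset.sum_add_distrib]
        map_smul' := by
          intro c g; funext p
          simp [Finset.mul_sum, mul_assoc] }
    have h := hasGaussianLaw_gm.map_fun (L.toContinuousLinearMap)
    have h2 : (fun (g : ι → ℝ) (p : Fin d × Fin d) => ser A g p.1 p.2) =
        fun g => L.toContinuousLinearMap (fun i => g i) := by
      funext g p
      rw [ser_apply]
      rfl
    rw [h2]
    exact h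
  · intro a b
    simp_rw [ser_apply]
    rw [integral_finsetSum]
    · refine Finset.sum_eq_zero fun i _ => ?_
      rw [integral_mul_const, integral_eval, zero_mul]
    · intro i _
      exact (integrable_eval i).mul_const _

lemma ser_cov (a b a' b' : Fin d) :
    ∫ g, ser A g a b * ser A g a' b' ∂(gm ι) = ∑ i, A i a b * A i a' b' := by
  simp_rw [ser_apply]
  exact integral_forms _ _

lemma ser_cov_int (a b a' b' : Fin d) :
    Integrable (fun g => ser A g a b * ser A g a' b') (gm ι) := by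
  simp_rw [ser_apply]
  exact integrable_forms _ _

lemma ser_gram : (Matrix.of fun a b => ∫ g, ((ser A g)ᵀ * ser A g) a b ∂(gm ι)) =
    ∑ i, (A i)ᵀ * A i := by
  ext a b
  simp only [Matrix.of_apply, Matrix.mul_apply, transpose_apply, Matrix.sum_apply]
  rw [integral_finsetSum _ fun c _ => ser_cov_int A c a c b]
  simp_rw [ser_cov]
  exact Finset.sum_comm

lemma ser_gram' : (Matrix.of fun a b => ∫ g, (ser A g * (ser A g)ᵀ) a b ∂(gm ι)) =
    ∑ i, A i * (A i)ᵀ := by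
  ext a b
  simp only [Matrix.of_apply, Matrix.mul_apply, transpose_apply, Matrix.sum_apply]
  rw [integral_finsetSum _ fun c _ => ser_cov_int A a c b c]
  simp_rw [ser_cov]
  exact Finset.sum_comm

lemma ser_bil (g : ι → ℝ) (v w : Fin d → ℝ) :
    w ⬝ᵥ (ser A g *ᵥ v) = ∑ i, g i * (w ⬝ᵥ (A i *ᵥ v)) := by
  rw [ser, sum_mulVec, dotProduct_sum]
  refine Finset.sum_congr rfl fun i _ => ?_
  rw [smul_mulVec, dotProduct_smul, smul_eq_mul]

lemma ser_weak (v w : EuclideanSpace ℝ (Fin d)) :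
    ∫ g, (inner ℝ (Matrix.toEuclideanCLM (n := Fin d) (𝕜 := ℝ) (ser A g) v) w) ^ 2 ∂(gm ι) =
      ∑ i, (w.ofLp ⬝ᵥ (A i *ᵥ v.ofLp)) ^ 2 := by
  have h1 : ∀ g, (inner ℝ (Matrix.toEuclideanCLM (n := Fin d) (𝕜 := ℝ) (ser A g) v) w) ^ 2 =
      (∑ i, g i * (w.ofLp ⬝ᵥ (A i *ᵥ v.ofLp))) * (∑ i, g i * (w.ofLp ⬝ᵥ (A i *ᵥ v.ofLp))) := by
    intro g
    rw [← pow_two, inner_eq, clm_apply, dotProduct_comm]
    rw [ser_bil]
  simp_rw [h1]
  rw [integral_forms]
  exact Finset.sum_congr rfl fun i _ => by ring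

lemma ser_sigma_le (K K' : ℝ) (hK : 0 ≤ K) (hK' : 0 ≤ K')
    (hB : ∀ v : Fin d → ℝ, ∑ i, ∑ a, (A i *ᵥ v) a ^ 2 ≤ K * ∑ b, v b ^ 2)
    (hB' : ∀ v : Fin d → ℝ, ∑ i, ∑ a, ((A i)ᵀ *ᵥ v) a ^ 2 ≤ K' * ∑ b, v b ^ 2) :
    sigma (ser A) (gm ι) ≤ √K + √K' := by
  unfold sigma
  rw [ser_gram, ser_gram']
  apply add_le_add
  · exact Real.sqrt_le_sqrt (gram_le A K hK hB)
  · apply Real.sqrt_le_sqrt
    have := gram_le (fun i => (A i)ᵀ) K' hK' hB'
    simpa using this

lemma ser_weakVar_le (K : ℝ)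
    (hB : ∀ v : Fin d → ℝ, ∑ i, ∑ a, (A i *ᵥ v) a ^ 2 ≤ K * ∑ b, v b ^ 2) :
    weakVar (ser A) (gm ι) ≤ √K := by
  unfold weakVar
  apply Real.iSup_le _ (Real.sqrt_nonneg _)
  rintro ⟨⟨v, hv⟩, ⟨w, hw⟩⟩
  apply Real.sqrt_le_sqrt
  dsimp only
  rw [ser_weak]
  exact weak_le A K hB v.ofLp w.ofLp (by rw [← norm_sq_eq, hv, one_pow])
    (by rw [← norm_sq_eq, hw, one_pow])

lemma ser_opNorm_le (g : ι → ℝ) : opNorm (ser A g) ≤ ∑ i, |g i| * opNorm (A i) := by
  unfold opNorm ser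
  rw [map_sum]
  refine (norm_sum_le _ _).trans (Finset.sum_le_sum fun i _ => ?_)
  rw [map_smul, norm_smul, Real.norm_eq_abs]

lemma continuous_ser_opNorm : Continuous fun g => opNorm (ser A g) := by
  unfold opNorm ser
  simp_rw [map_sum, map_smul]
  fun_prop

lemma integrable_ser_opNorm : Integrable (fun g => opNorm (ser A g)) (gm ι) := by
  refine Integrable.mono' (g := fun g => ∑ i, |g i| * opNorm (A i)) ?_
    (continuous_ser_opNorm A).aestronglyMeasurable ?_
  · exact integrable_finsetSum _ fun i _ => (integrable_eval i).abs.mul_const _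
  · refine Filter.Eventually.of_forall fun g => ?_
    rw [Real.norm_of_nonneg (opNorm_nonneg _)]
    exact ser_opNorm_le A g

end series

/-- First absolute moment of the standard Gaussian. -/
noncomputable def c0 : ℝ := ∫ x, |x| ∂(gaussianReal 0 1)

lemma c0_pos : 0 < c0 := by
  have hint : Integrable (fun x : ℝ => |x|) (gaussianReal 0 1) := by
    have := (memLp_id_gaussianReal (μ := 0) (v := 1) 1)
    rw [ENNReal.coe_one, memLp_one_iff_integrable] at this
    exact this.abs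
  have h0 : 0 ≤ c0 := integral_nonneg fun x => abs_nonneg x
  rcases h0.lt_or_eq with h | h
  · exact h
  · exfalso
    have h1 : (fun x : ℝ => |x|) =ᵐ[gaussianReal 0 1] 0 :=
      (integral_eq_zero_iff_of_nonneg (fun x => abs_nonneg x) hint).1 h.symm
    have h2 : Var[id; gaussianReal 0 1] = 0 := by
      rw [variance_eq_integral (by fun_prop)]
      rw [integral_eq_zero_iff_of_nonneg (fun x => sq_nonneg _)]
      · have : ∫ x, id x ∂(gaussianReal 0 1) = 0 := by simp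
        filter_upwards [h1] with x hx
        have hx' : x = 0 := by simpa using hx
        rw [this]
        simp [hx']
      · have : ∫ x, id x ∂(gaussianReal 0 1) = 0 := by simp
        rw [this]
        simp only [id_eq, sub_zero]
        exact (memLp_id_gaussianReal (μ := 0) (v := 1) 2).integrable_sq
    rw [variance_id_gaussianReal] at h2
    norm_num at h2

lemma integral_abs_eval {ι : Type} [Fintype ι] (i : ι) :
    ∫ g : ι → ℝ, |g i| ∂(gm ι) = c0 :=
  integral_comp_eval (μ := fun _ : ι => gaussianReal 0 1) (i := i)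
    (f := fun x : ℝ => |x|) (by fun_prop)

/-! ### The matrices -/

section example_

variable {d : ℕ} (m N : ℕ) (e : (Fin m → Fin (N + 1)) ↪ Fin d)

/-- The coefficient matrices. -/
noncomputable def coef (p : Fin m × Fin N) : Matrix (Fin d) (Fin d) ℝ := lift e (low m N p.1 p.2)

lemma coef_sq (v : Fin d → ℝ) :
    ∑ p, ∑ a, (coef m N e p *ᵥ v) a ^ 2 ≤ (m : ℝ) * ∑ b, v b ^ 2 := by
  unfold coef
  simp_rw [lift_mulVec_sq]
  refine (sum_low_sq m N (Q e *ᵥ v)).trans ?_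
  exact mul_le_mul_of_nonneg_left (Q_mulVec_sq e v) (Nat.cast_nonneg _)

lemma coef_transpose_sq (v : Fin d → ℝ) :
    ∑ p, ∑ a, ((coef m N e p)ᵀ *ᵥ v) a ^ 2 ≤ (m * N : ℝ) * ∑ b, v b ^ 2 := by
  unfold coef
  simp_rw [lift_transpose, lift_mulVec_sq]
  refine (sum_low_transpose_sq m N (Q e *ᵥ v)).trans ?_
  exact mul_le_mul_of_nonneg_left (Q_mulVec_sq e v) (by positivity)

lemma opNorm_ge (hN : 0 < N) (g : Fin m × Fin N → ℝ) :
    ∑ p, |g p| / (2 * √N) ≤ opNorm (ser (coef m N e) g) := by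
  obtain ⟨u, hu, hu2⟩ := exists_test m N hN g
  have h1 : ∑ a, ((Q e)ᵀ *ᵥ u) a ^ 2 = 1 := by rw [Q_transpose_sq, hu]
  refine le_trans (le_of_eq ?_) (le_opNorm _ _ h1)
  rw [ser_bil]
  refine Finset.sum_congr rfl fun p _ => ?_
  rw [coef, lift_quad, hu2]

lemma integral_opNorm_ge (hN : 0 < N) :
    (m * N : ℝ) * (c0 / (2 * √N)) ≤
      ∫ g, opNorm (ser (coef m N e) g) ∂(gm (Fin m × Fin N)) := by
  have h1 : ∫ g : Fin m × Fin N → ℝ, ∑ p, |g p| / (2 * √N) ∂(gm (Fin m × Fin N)) =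
      (m * N : ℝ) * (c0 / (2 * √N)) := by
    rw [integral_finsetSum]
    · have : ∀ p : Fin m × Fin N, ∫ g : Fin m × Fin N → ℝ, |g p| / (2 * √N)
          ∂(gm (Fin m × Fin N)) = c0 / (2 * √N) := by
        intro p
        rw [integral_div, integral_abs_eval]
      simp [this]
    · intro p _
      exact (integrable_eval p).abs.div_const _
  rw [← h1]
  apply integral_mono
  · exact integrable_finsetSum _ fun p _ => (integrable_eval p).abs.div_const _
  · exact integrable_ser_opNorm _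
  · intro g
    exact opNorm_ge m N e hN g

lemma sigma_le : sigma (ser (coef m N e)) (gm (Fin m × Fin N)) ≤ √m + √(m * N) :=
  ser_sigma_le _ _ _ (by positivity) (by positivity) (coef_sq m N e) (coef_transpose_sq m N e)

lemma weakVar_le : weakVar (ser (coef m N e)) (gm (Fin m × Fin N)) ≤ √m :=
  ser_weakVar_le _ _ (coef_sq m N e)

end example_

/-! ### Numerics -/

lemma half_le_floor (x : ℝ) (hx : 1 ≤ x) : x / 2 ≤ (⌊x⌋₊ : ℝ) := by
  have h1 := Nat.lt_floor_add_one x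
  have h2 : 1 ≤ ⌊x⌋₊ := (Nat.one_le_floor_iff x).2 hx
  have h3 : (1 : ℝ) ≤ (⌊x⌋₊ : ℝ) := by exact_mod_cast h2
  linarith

lemma log_three : (1.09 : ℝ) ≤ Real.log 3 := by
  rw [Real.le_log_iff_exp_le (by norm_num)]
  have h1 : Real.exp (1.09 : ℝ) = Real.exp 1 * Real.exp 0.09 := by
    rw [← Real.exp_add]; norm_num
  have h2 : Real.exp 0.09 ≤ 1.1 := by
    have h3 : 1 - 0.09 ≤ Real.exp (-0.09) := by
      have := Real.add_one_le_exp (-0.09 : ℝ)
      linarith
    rw [Real.exp_neg] at h3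
    have h4 : 0 < Real.exp 0.09 := Real.exp_pos _
    have h5 : (1 - 0.09) * Real.exp 0.09 ≤ 1 := by
      calc (1 - 0.09) * Real.exp 0.09 ≤ (Real.exp 0.09)⁻¹ * Real.exp 0.09 :=
            mul_le_mul_of_nonneg_right h3 h4.le
        _ = 1 := inv_mul_cancel₀ h4.ne'
    norm_num at h5 ⊢
    linarith
  rw [h1]
  have h6 := Real.exp_one_lt_d9
  have h7 : 0 < Real.exp (0.09 : ℝ) := Real.exp_pos _
  nlinarith

lemma numerics (d : ℕ) (hd : 3 ≤ d) : ∃ m N : ℕ, 0 < N ∧ 0 < m ∧ (N + 1) ^ m ≤ d ∧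
    (N : ℝ) ≤ Real.log d ∧ Real.log d / 2 ≤ N ∧
    Real.log d / Real.log (Real.log d) ≤ 16 * m ∧ 1.09 ≤ Real.log d := by
  set L := Real.log d with hL
  have hd3 : (3 : ℝ) ≤ d := by exact_mod_cast hd
  have hL1 : 1.09 ≤ L := log_three.trans (Real.log_le_log (by norm_num) hd3)
  have hL1' : 1 ≤ L := by linarith
  have hlogL : 0 < Real.log L := Real.log_pos (by linarith)
  have hN1 : 1 ≤ ⌊L⌋₊ := (Nat.one_le_floor_iff L).2 hL1'
  have hNL : (⌊L⌋₊ : ℝ) ≤ L := Nat.floor_le (by linarith)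
  have hN2 : L / 2 ≤ (⌊L⌋₊ : ℝ) := half_le_floor L hL1'
  set N := ⌊L⌋₊ with hN
  have hN1r : (1 : ℝ) ≤ N := by exact_mod_cast hN1
  have hlogN : 0 < Real.log (N + 1) := Real.log_pos (by linarith)
  have hlogN1 : Real.log (N + 1) ≤ Real.log (L + 1) := Real.log_le_log (by linarith) (by linarith)
  have hlogN2 : Real.log (L + 1) ≤ L := by
    have := Real.log_le_sub_one_of_pos (x := L + 1) (by linarith)
    linarith
  have hx1 : 1 ≤ L / Real.log (N + 1) := by
    rw [one_le_div hlogN]; linarith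
  have hm1 : 1 ≤ ⌊L / Real.log (N + 1)⌋₊ := (Nat.one_le_floor_iff _).2 hx1
  have hm2 := half_le_floor _ hx1
  have hm3 : (⌊L / Real.log (N + 1)⌋₊ : ℝ) ≤ L / Real.log (N + 1) :=
    Nat.floor_le (by positivity)
  set m := ⌊L / Real.log (N + 1)⌋₊ with hm
  have hm1r : (1 : ℝ) ≤ m := by exact_mod_cast hm1
  refine ⟨m, N, hN1, hm1, ?_, hNL, hN2, ?_, hL1⟩
  · have h1 : ((N : ℝ) + 1) ^ m ≤ d := by
      have h2 : (m : ℝ) * Real.log (N + 1) ≤ L := by
        rwa [le_div_iff₀ hlogN] at hm3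
      rw [← Real.log_pow, hL] at h2
      exact (Real.log_le_log_iff (by positivity) (by linarith)).1 h2
    exact_mod_cast h1
  · rcases lt_or_ge L 2 with hlt | hge
    · have h1 : L ≤ 16 * Real.log L := by
        have h2 := Real.one_sub_inv_le_log_of_pos (x := L) (by linarith)
        have h3 : L ≤ 16 * (1 - L⁻¹) := by
          have h4 : L * L ≤ 16 * (L - 1) := by nlinarith
          have h5 : 16 * (1 - L⁻¹) = 16 * (L - 1) / L := by
            have : L ≠ 0 := by linarith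
            field_simp
          rw [h5, le_div_iff₀ (by linarith)]
          exact h4
        linarith
      rw [div_le_iff₀ hlogL]
      nlinarith
    · have h1 : Real.log (L + 1) ≤ 2 * Real.log L := by
        have h2 : Real.log (L ^ 2) = 2 * Real.log L := by
          rw [Real.log_pow]; norm_num
        rw [← h2]
        exact Real.log_le_log (by linarith) (by nlinarith)
      have h3 : L / (2 * Real.log L) ≤ L / Real.log (N + 1) := by
        apply div_le_div_of_nonneg_left (by linarith) hlogN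
        linarith
      have h4 : L / Real.log L = 2 * (L / (2 * Real.log L)) := by
        field_simp
      rw [h4]
      linarith

/-- The main inequality in numbers. -/
lemma key_ineq (L N m : ℝ) (hL : 1.09 ≤ L) (hN : 0 < N) (hm : 0 < m) (hNL : N ≤ L)
    (hN2 : L / 2 ≤ N) (hm2 : L / Real.log L ≤ 16 * m) (s w : ℝ)
    (hs : s ≤ √m + √(m * N)) (hw : w ≤ √m) (hs0 : 0 ≤ s) (hw0 : 0 ≤ w) :
    c0 / 60 * √(L / Real.log L) * (s + √L * w) < (m * N) * (c0 / (2 * √N)) := by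
  have hc := c0_pos
  have hL0 : 0 < L := by linarith
  have hsm : 0 < √m := Real.sqrt_pos.2 hm
  have hsL : 1 ≤ √L := by
    rw [Real.one_le_sqrt]; linarith
  have hmm : √m * √m = m := Real.mul_self_sqrt hm.le
  have h1 : √(L / Real.log L) ≤ 4 * √m := by
    calc √(L / Real.log L) ≤ √(16 * m) := Real.sqrt_le_sqrt hm2
      _ = 4 * √m := by
        rw [Real.sqrt_mul (by norm_num), show (16 : ℝ) = 4 ^ 2 by norm_num,
          Real.sqrt_sq (by norm_num)]
  have h2 : s + √L * w ≤ 3 * (√m * √L) := by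
    have h3 : √(m * N) ≤ √m * √L := by
      rw [Real.sqrt_mul hm.le]
      exact mul_le_mul_of_nonneg_left (Real.sqrt_le_sqrt hNL) hsm.le
    have h4 : √m ≤ √m * √L := le_mul_of_one_le_right hsm.le hsL
    have h5 : √L * w ≤ √m * √L := by
      rw [mul_comm]
      exact mul_le_mul_of_nonneg_right hw (Real.sqrt_nonneg _)
    linarith
  have h6 : c0 / 60 * √(L / Real.log L) * (s + √L * w) ≤ c0 / 5 * (m * √L) := by
    calc c0 / 60 * √(L / Real.log L) * (s + √L * w)
        ≤ (c0 / 60 * (4 * √m)) * (3 * (√m * √L)) := by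
          apply mul_le_mul _ h2 (by positivity) (by positivity)
          exact mul_le_mul_of_nonneg_left h1 (by positivity)
      _ = c0 / 5 * ((√m * √m) * √L) := by ring
      _ = _ := by rw [hmm]
  have h7 : 2 / 3 * √L ≤ √N := by
    have h8 : √((2 / 3) ^ 2 * L) = 2 / 3 * √L := by
      rw [Real.sqrt_mul (by norm_num), Real.sqrt_sq (by norm_num)]
    rw [← h8]
    apply Real.sqrt_le_sqrt
    linarith
  have h9 : (m * N) * (c0 / (2 * √N)) = c0 / 2 * (m * √N) := by
    have h10 : √N * √N = N := Real.mul_self_sqrt hN.le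
    have h11 : √N ≠ 0 := (Real.sqrt_pos.2 hN).ne'
    have h12 : (m * N) * (c0 / (2 * √N)) = (m * (√N * √N)) * (c0 / (2 * √N)) := by rw [h10]
    rw [h12]
    field_simp
  rw [h9]
  refine lt_of_le_of_lt h6 ?_
  have h13 : m * (2 / 3 * √L) ≤ m * √N := mul_le_mul_of_nonneg_left h7 hm.le
  have h14 : 0 < m * √L := by positivity
  nlinarith

/-- The family of examples. -/
lemma examples (d : ℕ) (hd : 3 ≤ d) : ∃ (Ω : Type) (_ : MeasurableSpace Ω) (P : Measure Ω)
      (_ : IsProbabilityMeasure P) (X : Ω → Matrix (Fin d) (Fin d) ℝ),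
      IsCenteredGaussian X P ∧ Integrable (fun ω => opNorm (X ω)) P ∧
      c0 / 60 * √(Real.log d / Real.log (Real.log d)) *
        (sigma X P + √(Real.log d) * weakVar X P) < ∫ ω, opNorm (X ω) ∂P := by
  obtain ⟨m, N, hN, hm, hpow, hNL, hN2, hm2, hL⟩ := numerics d hd
  have hcard : Fintype.card (Fin m → Fin (N + 1)) ≤ Fintype.card (Fin d) := by
    simpa using hpow
  obtain ⟨e⟩ := Function.Embedding.nonempty_of_card_le hcard
  refine ⟨Fin m × Fin N → ℝ, inferInstance, gm (Fin m × Fin N), inferInstance,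
    ser (coef m N e), ser_isCentered _, integrable_ser_opNorm _, ?_⟩
  refine lt_of_lt_of_le ?_ (integral_opNorm_ge m N e hN)
  refine key_ineq _ _ _ hL (by exact_mod_cast hN) (by exact_mod_cast hm) hNL hN2 hm2 _ _
    (sigma_le m N e) (weakVar_le m N e) ?_ ?_
  · unfold sigma; positivity
  · unfold weakVar
    exact Real.iSup_nonneg fun _ => Real.sqrt_nonneg _

/-- The inequality of the question fails, and the ratio of the two sides is at least of order
`√(log d / log log d)` in every dimension `d ≥ 3`. -/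
theorem result :
    (¬ ∃ C : ℝ, ∀ d : ℕ, 2 ≤ d → ∀ (Ω : Type) (_ : MeasurableSpace Ω) (P : Measure Ω)
      (_ : IsProbabilityMeasure P) (X : Ω → Matrix (Fin d) (Fin d) ℝ),
      IsCenteredGaussian X P →
        ∫ ω, opNorm (X ω) ∂P ≤ C * (sigma X P + √(Real.log d) * weakVar X P)) ∧
    ∃ c : ℝ, 0 < c ∧ ∀ d : ℕ, 3 ≤ d → ∃ (Ω : Type) (_ : MeasurableSpace Ω) (P : Measure Ω)
      (_ : IsProbabilityMeasure P) (X : Ω → Matrix (Fin d) (Fin d) ℝ),
      IsCenteredGaussian X P ∧ Integrable (fun ω => opNorm (X ω)) P ∧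
        c * √(Real.log d / Real.log (Real.log d)) *
          (sigma X P + √(Real.log d) * weakVar X P) < ∫ ω, opNorm (X ω) ∂P := by
  have hc := c0_pos
  refine ⟨?_, c0 / 60, by positivity, examples⟩
  rintro ⟨C, hC⟩
  set c := c0 / 60 with hcdef
  have hcpos : 0 < c := by positivity
  set T := max 2 (4 * (C / c) ^ 4) with hT
  have hT2 : 2 ≤ T := le_max_left _ _
  have hTC : 4 * (C / c) ^ 4 ≤ T := le_max_right _ _
  obtain ⟨d, hd⟩ : ∃ d : ℕ, d = ⌈Real.exp T⌉₊ := ⟨_, rfl⟩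
  have hdT : Real.exp T ≤ d := by rw [hd]; exact Nat.le_ceil _
  have hd3' : (3 : ℝ) ≤ d := by
    have := Real.add_one_le_exp T
    linarith
  have hd3 : 3 ≤ d := by exact_mod_cast hd3'
  have hLT : T ≤ Real.log d := by
    rw [Real.le_log_iff_exp_le (by linarith)]
    exact hdT
  obtain ⟨Ω, mΩ, P, hP, X, hX, -, hX2⟩ := examples d hd3
  have h1 := hC d (by omega) Ω mΩ P hP X hX
  have hS : 0 ≤ sigma X P + √(Real.log d) * weakVar X P := by
    have h2 : 0 ≤ weakVar X P := by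
      unfold weakVar
      exact Real.iSup_nonneg fun _ => Real.sqrt_nonneg _
    have h3 : 0 ≤ sigma X P := by unfold sigma; positivity
    positivity
  have h4 : C ≤ c * √(Real.log d / Real.log (Real.log d)) := by
    set L := Real.log d with hL
    have hL2 : 2 ≤ L := hT2.trans hLT
    have hlog : 0 < Real.log L := Real.log_pos (by linarith)
    have h5 : Real.log L ≤ 2 * √L := by
      have h6 := Real.log_le_sub_one_of_pos (x := √L) (Real.sqrt_pos.2 (by linarith))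
      rw [Real.log_sqrt (by linarith)] at h6
      linarith
    have h7 : √L / 2 ≤ L / Real.log L := by
      rw [le_div_iff₀ hlog]
      have h8 : √L * √L = L := Real.mul_self_sqrt (by linarith)
      nlinarith [Real.sqrt_nonneg L]
    have h9 : (C / c) ^ 2 ≤ √L / 2 := by
      have h10 : 2 * (C / c) ^ 2 ≤ √L := by
        apply Real.le_sqrt_of_sq_le
        calc (2 * (C / c) ^ 2) ^ 2 = 4 * (C / c) ^ 4 := by ring
          _ ≤ L := hTC.trans hLT
      linarith
    have h11 : C / c ≤ √(L / Real.log L) := Real.le_sqrt_of_sq_le (h9.trans h7)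
    rw [div_le_iff₀ hcpos] at h11
    linarith
  have h5 := mul_le_mul_of_nonneg_right h4 hS
  exact absurd (lt_of_lt_of_le hX2 (h1.trans h5)) (lt_irrefl _)

end Pool.Agent.Results.MP_25279b_pr.GrowingRatio
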